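import Mathlib

/-!
# Group representations, first-order formulas and formulas of action
-/

namespace Q4.ActF

/-- A representation `ρ = (V, G)` over the ring `K`: a `K`-module `V` on which the group `G` acts
on the right by `K`-module automorphisms. -/
structure Rep (K : Type) [Ring K] : Type 1 where
  /-- the module -/
  V : Type
  /-- the group -/
  G : Type
  [addCommGroup : AddCommGroup V]
  [module : Module K V]
  [group : Group G]
  /-- the action -/
  hom : G →* (V ≃ₗ[K] V)ᵐᵒᵖ

attribute [instance] Rep.addCommGroup Rep.module Rep.group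

variable {K : Type} [Ring K]

/-- The action `v ∘ g`. -/
def Rep.act (ρ : Rep K) (v : ρ.V) (g : ρ.G) : ρ.V := (ρ.hom g).unop v

/-- The faithful representation `(V, G/N)` of `ρ = (V, G)`, with `N` the kernel of the action. -/
def Rep.faithful (ρ : Rep K) : Rep K where
  V := ρ.V
  G := ρ.G ⧸ ρ.hom.ker
  hom := QuotientGroup.kerLift ρ.hom

/-- The subrepresentation `(V, H)` for a subgroup `H` of `G`. -/
def Rep.restrict (ρ : Rep K) (H : Subgroup ρ.G) : Rep K where
  V := ρ.V
  G := H
  hom := ρ.hom.comp H.subtype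

/-- Isomorphism of representations. -/
def Rep.Iso (ρ σ : Rep K) : Prop :=
  ∃ (a : ρ.V ≃ₗ[K] σ.V) (b : ρ.G ≃* σ.G), ∀ v g, a (ρ.act v g) = σ.act (a v) (b g)

/-- First-order formulas; the module variables and the group variables are indexed by `ℕ`, so that
`F = FreeGroup ℕ` is the free group on the group variables. -/
inductive Formula (K : Type) [Ring K] : Type
  /-- the formula `x_{i₁} ∘ u₁ + ⋯ + x_{iₙ} ∘ uₙ ≡ 0`, for the list of the pairs `(i_j, u_j)` -/
  | lin (l : List (ℕ × MonoidAlgebra K (FreeGroup ℕ))) : Formula K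
  /-- the formula `f ≡ 1` -/
  | word (f : FreeGroup ℕ) : Formula K
  | and (φ ψ : Formula K) : Formula K
  | or (φ ψ : Formula K) : Formula K
  | neg (φ : Formula K) : Formula K
  /-- `∀ x_i φ` -/
  | allV (i : ℕ) (φ : Formula K) : Formula K
  /-- `∃ x_i φ` -/
  | exV (i : ℕ) (φ : Formula K) : Formula K
  /-- `∀ y_i φ` -/
  | allG (i : ℕ) (φ : Formula K) : Formula K
  /-- `∃ y_i φ` -/
  | exG (i : ℕ) (φ : Formula K) : Formula K

/-- The value `x ∘ u` of an element `u` of `KF`, for an assignment `g` of the group variables. -/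
noncomputable def Rep.val (ρ : Rep K) (g : ℕ → ρ.G) (x : ρ.V)
    (u : MonoidAlgebra K (FreeGroup ℕ)) : ρ.V :=
  u.coeff.sum fun f k => k • ρ.act x (FreeGroup.lift g f)

/-- The formula is satisfied in `ρ` under the assignment `(v, g)`. -/
def Rep.Sat (ρ : Rep K) : Formula K → (ℕ → ρ.V) → (ℕ → ρ.G) → Prop
  | .lin l, v, g => (l.map fun p => ρ.val g (v p.1) p.2).sum = 0
  | .word f, _, g => FreeGroup.lift g f = 1
  | .and φ ψ, v, g => ρ.Sat φ v g ∧ ρ.Sat ψ v g
  | .or φ ψ, v, g => ρ.Sat φ v g ∨ ρ.Sat ψ v g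
  | .neg φ, v, g => ¬ ρ.Sat φ v g
  | .allV i φ, v, g => ∀ x, ρ.Sat φ (Function.update v i x) g
  | .exV i φ, v, g => ∃ x, ρ.Sat φ (Function.update v i x) g
  | .allG i φ, v, g => ∀ y, ρ.Sat φ v (Function.update g i y)
  | .exG i φ, v, g => ∃ y, ρ.Sat φ v (Function.update g i y)

/-- Formulas of action: built from elementary formulas of the first type only, without
quantification over group variables. -/
def Formula.IsAction : Formula K → Prop
  | .lin _ => True
  | .word _ => False
  | .and φ ψ => φ.IsAction ∧ ψ.IsAction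
  | .or φ ψ => φ.IsAction ∧ ψ.IsAction
  | .neg φ => φ.IsAction
  | .allV _ φ => φ.IsAction
  | .exV _ φ => φ.IsAction
  | .allG _ _ => False
  | .exG _ _ => False

/-- `φ` holds in `ρ`. -/
def Rep.Holds (ρ : Rep K) (φ : Formula K) : Prop := ∀ v g, ρ.Sat φ v g

/-- The class `C` is defined by the set of formulas `T`. -/
def DefinedBy (C : Rep K → Prop) (T : Set (Formula K)) : Prop :=
  ∀ ρ, C ρ ↔ ∀ φ ∈ T, ρ.Holds φ

/-- `C` is an abstract class. -/
def IsAbstract (C : Rep K → Prop) : Prop := ∀ ρ σ : Rep K, ρ.Iso σ → C ρ → C σ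

/-- `C` is axiomatizable. -/
def IsAxiomatizable (C : Rep K → Prop) : Prop := ∃ T, DefinedBy C T

/-- `C` is saturated. -/
def IsSaturated (C : Rep K → Prop) : Prop := ∀ ρ, C ρ ↔ C ρ.faithful

/-- `C` is right hereditary. -/
def IsRightHereditary (C : Rep K → Prop) : Prop := ∀ ρ H, C ρ → C (ρ.restrict H)

/-- `C` is defined by some set of formulas of action. -/
def IsDefinedByAction (C : Rep K → Prop) : Prop :=
  ∃ T : Set (Formula K), (∀ φ ∈ T, φ.IsAction) ∧ DefinedBy C T

end Q4.ActF
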