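import Pool.Agent.Q4.ActF.Defs

/-!
# The class of representations with a nonzero fixed vector
-/

namespace Q4.ActF

variable {K : Type} [Ring K]

theorem act_one (ρ : Rep K) (v : ρ.V) : ρ.act v 1 = v := by
  unfold Rep.act
  rw [map_one]
  rfl

theorem act_mul (ρ : Rep K) (v : ρ.V) (g h : ρ.G) : ρ.act v (g * h) = ρ.act (ρ.act v g) h := by
  unfold Rep.act
  rw [map_mul]
  rfl

variable (K) in
/-- Representations with a nonzero fixed vector. -/
def Fix (ρ : Rep K) : Prop := ∃ x : ρ.V, x ≠ 0 ∧ ∀ g, ρ.act x g = x

theorem fix_abstract : IsAbstract (Fix K) := by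
  rintro ρ σ ⟨a, b, hab⟩ ⟨x, hx, hfix⟩
  refine ⟨a x, fun h => hx (a.injective (h.trans (map_zero a).symm)), fun g => ?_⟩
  obtain ⟨g, rfl⟩ := b.surjective g
  rw [← hab, hfix]

theorem fix_saturated : IsSaturated (Fix K) := by
  intro ρ
  constructor
  · rintro ⟨x, hx, hfix⟩
    refine ⟨x, hx, fun g => ?_⟩
    induction g using QuotientGroup.induction_on with
    | H g => exact hfix g
  · rintro ⟨x, hx, hfix⟩
    exact ⟨x, hx, fun g => hfix (QuotientGroup.mk g)⟩

theorem fix_hereditary : IsRightHereditary (Fix K) := by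
  rintro ρ H ⟨x, hx, hfix⟩
  exact ⟨x, hx, fun (g : H) => hfix g⟩

variable (K) in
/-- The axiom `∃ x (¬ (x ≡ 0) ∧ ∀ y (x ∘ (y - 1) ≡ 0))`. -/
noncomputable def ax : Formula K :=
  .exV 0 (.and (.neg (.lin [(0, MonoidAlgebra.single 1 1)]))
    (.allG 0 (.lin [(0, MonoidAlgebra.single (FreeGroup.of 0) 1), (0, MonoidAlgebra.single 1 (-1))])))

theorem val_single (ρ : Rep K) (g : ℕ → ρ.G) (x : ρ.V) (f : FreeGroup ℕ) (k : K) :
    ρ.val g x (MonoidAlgebra.single f k) = k • ρ.act x (FreeGroup.lift g f) := by
  unfold Rep.val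
  rw [MonoidAlgebra.coeff_single, Finsupp.sum_single_index]
  rw [zero_smul]

theorem fix_axiomatizable : IsAxiomatizable (Fix K) := by
  refine ⟨{ax K}, fun ρ => ?_⟩
  have hsat : ∀ v g, ρ.Sat (ax K) v g ↔ Fix K ρ := by
    intro v g
    unfold ax Fix
    simp only [Rep.Sat, List.map_cons, List.map_nil, List.sum_cons, List.sum_nil, add_zero,
      val_single, Function.update_self, map_one, act_one, one_smul, FreeGroup.lift_apply_of,
      neg_smul]
    refine exists_congr fun x => and_congr Iff.rfl (forall_congr' fun y => ?_)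
    rw [add_neg_eq_zero]
  constructor
  · intro h φ hφ
    rw [Set.mem_singleton_iff.1 hφ]
    exact fun v g => (hsat v g).2 h
  · intro h
    exact (hsat (fun _ => 0) (fun _ => 1)).1 (h _ rfl _ _)

/-- Satisfaction of formulas of action only depends on the subgroup generated by the values of the
group variables. -/
theorem sat_restrict (ρ : Rep K) (H : Subgroup ρ.G) (φ : Formula K) (hφ : φ.IsAction)
    (v : ℕ → ρ.V) (g : ℕ → H) :
    (ρ.restrict H).Sat φ v g ↔ ρ.Sat φ v (fun i => (g i : ρ.G)) := by
  induction φ generalizing v with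
  | lin l =>
    have h : ∀ (x : ρ.V) (u : MonoidAlgebra K (FreeGroup ℕ)),
        (ρ.restrict H).val g x u = ρ.val (fun i => (g i : ρ.G)) x u := by
      intro x u
      unfold Rep.val
      refine Finsupp.sum_congr fun f _ => ?_
      congr 1
      change ρ.act x ((FreeGroup.lift g f : H) : ρ.G) = _
      congr 1
      have h1 : (H.subtype.comp (FreeGroup.lift g)) =
          FreeGroup.lift (fun i => (g i : ρ.G)) := by
        ext i
        simp
      exact DFunLike.congr_fun h1 f
    simp only [Rep.Sat]
    simp only [h]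
    rfl
  | word f => exact hφ.elim
  | and φ ψ ih1 ih2 => exact and_congr (ih1 hφ.1 v) (ih2 hφ.2 v)
  | or φ ψ ih1 ih2 => exact or_congr (ih1 hφ.1 v) (ih2 hφ.2 v)
  | neg φ ih => exact not_congr (ih hφ v)
  | allV i φ ih => exact forall_congr' fun x => ih hφ _
  | exV i φ ih => exact exists_congr fun x => ih hφ _
  | allG i φ ih => exact hφ.elim
  | exG i φ ih => exact hφ.elim

/-- The finitary permutations of an uncountable set. -/
def finitary (I : Type) : Subgroup (Equiv.Perm I) where
  carrier := {σ | {i | σ i ≠ i}.Finite}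
  mul_mem' := by
    intro a b ha hb
    refine (ha.union hb).subset ?_
    intro i hi
    by_contra h
    simp only [Set.mem_union, Set.mem_ofPred_eq, not_or, not_not] at h
    apply hi
    rw [Equiv.Perm.mul_apply, h.2, h.1]
  one_mem' := by
    simp
  inv_mem' := by
    intro a ha
    have : {i | a⁻¹ i ≠ i} = {i | a i ≠ i} := by
      ext i
      simp only [Set.mem_ofPred_eq, ne_eq]
      rw [Equiv.Perm.inv_eq_iff_eq, eq_comm]
    change Set.Finite {i | a⁻¹ i ≠ i}
    rw [this]
    exact ha

variable (K) in
/-- The permutation module of the finitary permutations of `I`. -/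
noncomputable def permRep (I : Type) : Rep K where
  V := I →₀ K
  G := finitary I
  hom :=
    { toFun := fun σ => MulOpposite.op (Finsupp.domLCongr (σ : Equiv.Perm I)⁻¹)
      map_one' := by
        apply MulOpposite.unop_injective
        ext i j
        simp
        rfl
      map_mul' := by
        intro a b
        apply MulOpposite.unop_injective
        ext i j
        simp [mul_inv_rev]
        rfl }

theorem permRep_act (I : Type) (x : I →₀ K) (σ : finitary I) (i : I) :
    (show I →₀ K from (permRep K I).act x σ) i = x ((σ : Equiv.Perm I) i) := by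
  change (Finsupp.domLCongr (σ : Equiv.Perm I)⁻¹ x : I →₀ K) i = _
  simp
  rfl

theorem permRep_not_fix (I : Type) [Infinite I] : ¬ Fix K (permRep K I) := by
  rintro ⟨x, hx, hfix⟩
  apply hx
  let y : I →₀ K := x
  change y = 0
  have hx' : ∀ i j : I, y i = y j := by
    classical
    intro i j
    have hfin : Equiv.swap i j ∈ finitary I := by
      refine (Set.toFinite {i, j}).subset ?_
      intro k hk
      by_contra h
      simp only [Set.mem_insert_iff, Set.mem_singleton_iff, not_or] at h
      exact hk (Equiv.swap_apply_of_ne_of_ne h.1 h.2)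
    have h1 := permRep_act I y (⟨_, hfin⟩ : finitary I) i
    have h2 : (permRep K I).act y (⟨_, hfin⟩ : finitary I) = y := hfix _
    rw [h2] at h1
    rw [h1]
    simp
  obtain ⟨j, hj⟩ := Infinite.exists_notMem_finset y.support
  ext i
  rw [hx' i j]
  simpa using hj

theorem permRep_restrict_fix [Nontrivial K] (I : Type) [Uncountable I] (g : ℕ → finitary I) :
    Fix K ((permRep K I).restrict (Subgroup.closure (Set.range g))) := by
  have hc : (⋃ n, {i : I | ((g n : finitary I) : Equiv.Perm I) i ≠ i}).Countable :=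
    Set.countable_iUnion fun n => (g n).2.countable
  obtain ⟨j, hj⟩ : ∃ j, j ∉ (⋃ n, {i : I | ((g n : finitary I) : Equiv.Perm I) i ≠ i}) := by
    by_contra h
    push Not at h
    exact not_countable (α := I) (Set.countable_univ_iff.1 (hc.mono fun j _ => h j))
  have hj' : ∀ n, ((g n : finitary I) : Equiv.Perm I) j = j := by
    intro n
    by_contra h
    exact hj (Set.mem_iUnion.2 ⟨n, h⟩)
  have hfixH : ∀ σ ∈ Subgroup.closure (Set.range g), ((σ : finitary I) : Equiv.Perm I) j = j := by
    intro σ hσ
    induction hσ using Subgroup.closure_induction with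
    | mem x hx => obtain ⟨n, rfl⟩ := hx; exact hj' n
    | one => rfl
    | mul a b _ _ ha hb =>
      change (a : Equiv.Perm I) ((b : Equiv.Perm I) j) = j
      rw [hb, ha]
    | inv a _ ha =>
      change (a : Equiv.Perm I)⁻¹ j = j
      rw [Equiv.Perm.inv_eq_iff_eq, ha]
  refine ⟨(Finsupp.single j 1 : I →₀ K), ?_, ?_⟩
  · intro h
    have h' : (Finsupp.single j 1 : I →₀ K) = 0 := h
    have h3 := congrArg (fun y : I →₀ K => y j) h'
    simp at h3
  · rintro ⟨(σ : finitary I), hσ⟩
    change (show I →₀ K from (permRep K I).act (Finsupp.single j 1 : I →₀ K) σ) = _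
    classical
    refine Finsupp.ext fun i => ?_
    rw [permRep_act]
    by_cases hij : i = j
    · rw [hij, hfixH σ hσ]
    · rw [Finsupp.single_eq_of_ne, Finsupp.single_eq_of_ne]
      · exact hij
      · intro h
        apply hij
        have := hfixH σ hσ
        exact (σ : Equiv.Perm I).injective (h.trans this.symm)

theorem not_definedByAction [Nontrivial K] : ¬ IsDefinedByAction (Fix K) := by
  rintro ⟨T, hT, hdef⟩
  have hunc : Uncountable ℝ := inferInstance
  apply permRep_not_fix (K := K) ℝ
  rw [hdef]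
  intro φ hφ v g
  let H : Subgroup (finitary ℝ) := Subgroup.closure (Set.range g)
  have hg : ∀ i, g i ∈ H := fun i => Subgroup.subset_closure ⟨i, rfl⟩
  have h3 := (hdef _).1 (permRep_restrict_fix ℝ g) φ hφ v (fun i => ⟨g i, hg i⟩)
  exact (sat_restrict (permRep K ℝ) H φ (hT φ hφ) v (fun i => ⟨g i, hg i⟩)).1 h3

end Q4.ActF
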